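import Mathlib
import Pool.Agent.Lib.helper12.NimExists

set_option autoImplicit false

namespace Pool.Agent.Results.MP_68925f_co.Squares

open Pool.Agent.Lib.helper12.Nim

theorem result :
    (∃ op : ℕ → ℕ → ℕ, NimRules op) ∧
    ∀ op : ℕ → ℕ → ℕ, NimRules op → ¬ TwoRegularSeq (fun n => (op n n : ℤ)) :=
  ⟨⟨nimMul, nimRules⟩, fun _ h => not_seq h⟩

end Pool.Agent.Results.MP_68925f_co.Squares
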