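import Mathlib
import Pool.Agent.Lib.helper12.NimExists

set_option autoImplicit false

namespace Pool.Agent.Results.MP_68925f_co.Table

open Pool.Agent.Lib.helper12.Nim

theorem result :
    (∃ op : ℕ → ℕ → ℕ, NimRules op) ∧
    ∀ op : ℕ → ℕ → ℕ, NimRules op → ¬ TwoRegularArr (fun p => (op p.1 p.2 : ℤ)) :=
  ⟨⟨nimMul, nimRules⟩, fun _ h => not_arr h⟩

end Pool.Agent.Results.MP_68925f_co.Table
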